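import Pool.Agent.Lib.MP_b4a791_lc.B.ModelB
import Pool.Agent.Lib.MP_b4a791_lc.C.Model
import Pool.Agent.Lib.MP_b4a791_lc.D.Rca

/-!
# MP_b4a791_lc: the final theorem
-/

namespace Pool.Agent.Lib.MP_b4a791_lc

theorem pat1302_nonConst : pat1302.NonConst := by
  intro b
  cases b
  · exact ⟨0, 1, by decide, by decide, by decide⟩
  · exact ⟨0, 2, by decide, by decide, by decide⟩

/-- The statement `RT²₂(1302)`. -/
def rt1302 : RamseyLike := .pat pat1302 pat1302_nonConst

/-- A homogeneous set avoids all non-constant patterns. -/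
theorem sol_pat_of_rt22 (A : L2Str) (X H : Set A.M) (p : Pattern) (hp : p.NonConst)
    (h : RamseyLike.rt22.Sol A X H) : (RamseyLike.pat p hp).Sol A X H := by
  obtain ⟨h1, b, h2⟩ := h
  refine ⟨h1, ?_⟩
  rintro ⟨x, hx, hlt, hc⟩
  obtain ⟨i, j, hij, hj, hb⟩ := hp (!b)
  have h3 := h2 (x i) (hx i (hij.trans hj)) (x j) (hx j hj) (hlt i j hij hj)
  have h4 := hc i j hij hj
  rw [hb] at h4
  have h5 : (b = true) ↔ ((!b) = true) := h3.symm.trans h4
  cases b <;> simp at h5

/-- In every structure satisfying the basic axioms the color of a homogeneous set avoids non-constant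
patterns: `RT²₂ → RT²₂(p)`. -/
theorem geI_rt22_pat (p : Pattern) (hp : p.NonConst) : GeI .rt22 (.pat p hp) := by
  intro M _ h X hX
  obtain ⟨H, hH, hs⟩ := h X hX
  exact ⟨H, hH, sol_pat_of_rt22 M X H p hp hs⟩

theorem geII_rt22_pat (p : Pattern) (hp : p.NonConst) : GeII .rt22 (.pat p hp) := by
  intro S hS h
  exact geI_rt22_pat p hp _ hS h

theorem geIII_rt22_pat (p : Pattern) (hp : p.NonConst) : GeIII .rt22 (.pat p hp) := by
  intro X
  exact ⟨X, TRed.refl X, fun H hH => ⟨H, tred_join_left H X,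
    sol_pat_of_rt22 (omegaStr Set.univ) X H p hp hH⟩⟩

theorem color_iff (S : Set (Set ℕ)) (Y : Set ℕ) (x y : ℕ) (b : Bool) :
    (omegaStr S).Color Y x y b ↔ clr Y x y = b := by
  have h1 : (omegaStr S).pr x y = prc x y := rfl
  unfold L2Str.Color clr
  rw [h1]
  by_cases h : prc x y ∈ Y
  · cases b <;> simp [h] <;> exact h
  · cases b <;> simp [h] <;> exact h

theorem inf_iff (S : Set (Set ℕ)) (H : Set ℕ) : (omegaStr S).Inf H ↔ Unb H := Iff.rfl

/-- The three points of a realization of a pattern of size three. -/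
theorem realizes3 (S : Set (Set ℕ)) (Y H : Set ℕ) (p : Pattern) (hp : p.len = 3) :
    (omegaStr S).Realizes Y H p ↔ ∃ x ∈ H, ∃ y ∈ H, ∃ z ∈ H, x < y ∧ y < z ∧
      clr Y x y = p.col 0 1 ∧ clr Y y z = p.col 1 2 ∧ clr Y x z = p.col 0 2 := by
  constructor
  · rintro ⟨x, hx, hlt, hc⟩
    rw [hp] at hx hlt hc
    refine ⟨x 0, hx 0 (by decide), x 1, hx 1 (by decide), x 2, hx 2 (by decide),
      hlt 0 1 (by decide) (by decide), hlt 1 2 (by decide) (by decide),
      (color_iff S Y _ _ _).1 (hc 0 1 (by decide) (by decide)),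
      (color_iff S Y _ _ _).1 (hc 1 2 (by decide) (by decide)),
      (color_iff S Y _ _ _).1 (hc 0 2 (by decide) (by decide))⟩
  · rintro ⟨x, hx, y, hy, z, hz, hxy, hyz, h1, h2, h3⟩
    refine ⟨fun i => if i = 0 then x else if i = 1 then y else z, ?_, ?_, ?_⟩
    · intro i hi
      rw [hp] at hi
      interval_cases i
      · exact hx
      · exact hy
      · exact hz
    · intro i j hij hj
      rw [hp] at hj
      interval_cases j
      · omega
      · interval_cases i
        exact hxy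
      · interval_cases i
        · exact hxy.trans hyz
        · exact hyz
    · intro i j hij hj
      rw [hp] at hj
      interval_cases j
      · omega
      · interval_cases i
        exact (color_iff S Y _ _ _).2 h1
      · interval_cases i
        · exact (color_iff S Y _ _ _).2 h3
        · exact (color_iff S Y _ _ _).2 h2

theorem realizes_1302 (S : Set (Set ℕ)) (Y H : Set ℕ) :
    (omegaStr S).Realizes Y H pat1302 ↔
      ∃ x0 ∈ H, ∃ x1 ∈ H, ∃ x2 ∈ H, ∃ x3 ∈ H, Copy (clr Y) x0 x1 x2 x3 := by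
  constructor
  · rintro ⟨x, hx, hlt, hc⟩
    have h4 : pat1302.len = 4 := rfl
    rw [h4] at hx hlt hc
    refine ⟨x 0, hx 0 (by decide), x 1, hx 1 (by decide), x 2, hx 2 (by decide),
      x 3, hx 3 (by decide), hlt 0 1 (by decide) (by decide), hlt 1 2 (by decide) (by decide),
      hlt 2 3 (by decide) (by decide), ?_, ?_, ?_, ?_, ?_, ?_⟩
    · exact (color_iff S Y _ _ _).1 (hc 0 1 (by decide) (by decide))
    · exact (color_iff S Y _ _ _).1 (hc 0 2 (by decide) (by decide))
    · exact (color_iff S Y _ _ _).1 (hc 0 3 (by decide) (by decide))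
    · exact (color_iff S Y _ _ _).1 (hc 1 2 (by decide) (by decide))
    · exact (color_iff S Y _ _ _).1 (hc 1 3 (by decide) (by decide))
    · exact (color_iff S Y _ _ _).1 (hc 2 3 (by decide) (by decide))
  · rintro ⟨x0, h0, x1, h1, x2, h2, x3, h3, a, b, c, d, e, g, o, k, l⟩
    refine ⟨fun i => if i = 0 then x0 else if i = 1 then x1 else if i = 2 then x2 else x3,
      ?_, ?_, ?_⟩
    · intro i hi
      have h4 : i < 4 := hi
      interval_cases i
      · exact h0
      · exact h1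
      · exact h2
      · exact h3
    · intro i j hij hj
      have h4 : j < 4 := hj
      interval_cases j
      · omega
      · interval_cases i
        exact a
      · interval_cases i
        · exact a.trans b
        · exact b
      · interval_cases i
        · exact (a.trans b).trans c
        · exact b.trans c
        · exact c
    · intro i j hij hj
      have h4 : j < 4 := hj
      interval_cases j
      · omega
      · interval_cases i
        exact (color_iff S Y _ _ _).2 d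
      · interval_cases i
        · exact (color_iff S Y _ _ _).2 e
        · exact (color_iff S Y _ _ _).2 o
      · interval_cases i
        · exact (color_iff S Y _ _ _).2 g
        · exact (color_iff S Y _ _ _).2 k
        · exact (color_iff S Y _ _ _).2 l

/-- Solutions of `RT²₂(1302)` in the standard structure. -/
theorem sol_rt1302_iff (S : Set (Set ℕ)) (Y H : Set ℕ) :
    rt1302.Sol (omegaStr S) Y H ↔ Unb H ∧ Av (clr Y) H := by
  have h0 : rt1302.Sol (omegaStr S) Y H ↔
    (omegaStr S).Inf H ∧ ¬ (omegaStr S).Realizes Y H pat1302 := Iff.rfl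
  rw [h0, realizes_1302]
  refine and_congr Iff.rfl ?_
  constructor
  · intro h x0 h0 x1 h1 x2 h2 x3 h3 hc
    exact h ⟨x0, h0, x1, h1, x2, h2, x3, h3, hc⟩
  · rintro h ⟨x0, h0, x1, h1, x2, h2, x3, h3, hc⟩
    exact h x0 h0 x1 h1 x2 h2 x3 h3 hc

/-- Solutions of `RT²₂` in the standard structure. -/
theorem sol_rt22_iff (S : Set (Set ℕ)) (Y H : Set ℕ) :
    RamseyLike.rt22.Sol (omegaStr S) Y H ↔
      Unb H ∧ ∃ b : Bool, ∀ x ∈ H, ∀ y ∈ H, x < y → clr Y x y = b := by
  have h0 : RamseyLike.rt22.Sol (omegaStr S) Y H ↔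
    (omegaStr S).Inf H ∧ ∃ b, (omegaStr S).Homog Y H b := Iff.rfl
  rw [h0]
  refine and_congr Iff.rfl (exists_congr fun b => ?_)
  constructor
  · intro h x hx y hy hxy
    exact (color_iff S Y x y b).1 (h x hx y hy hxy)
  · intro h x hx y hy hxy
    exact (color_iff S Y x y b).2 (h x hx y hy hxy)

/-- Solutions of `EM` in the standard structure. -/
theorem sol_em_iff (S : Set (Set ℕ)) (Y H : Set ℕ) :
    RamseyLike.em.Sol (omegaStr S) Y H ↔
      Unb H ∧ ∀ x ∈ H, ∀ y ∈ H, ∀ z ∈ H, x < y → y < z → ∀ v, clr Y x y = v → clr Y y z = v →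
        clr Y x z = v := by
  have h0 : RamseyLike.em.Sol (omegaStr S) Y H ↔ (omegaStr S).Inf H ∧
    ¬ (omegaStr S).Realizes Y H patQ ∧ ¬ (omegaStr S).Realizes Y H patQbar := Iff.rfl
  rw [h0, realizes3 S Y H patQ rfl, realizes3 S Y H patQbar rfl]
  refine and_congr Iff.rfl ?_
  have q1 : patQ.col 0 1 = false := rfl
  have q2 : patQ.col 1 2 = false := rfl
  have q3 : patQ.col 0 2 = true := rfl
  have r1 : patQbar.col 0 1 = true := rfl
  have r2 : patQbar.col 1 2 = true := rfl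
  have r3 : patQbar.col 0 2 = false := rfl
  rw [q1, q2, q3, r1, r2, r3]
  constructor
  · rintro ⟨h1, h2⟩ x hx y hy z hz hxy hyz v ha hb
    by_contra hne
    cases v
    · exact h1 ⟨x, hx, y, hy, z, hz, hxy, hyz, ha, hb, by simpa using hne⟩
    · exact h2 ⟨x, hx, y, hy, z, hz, hxy, hyz, ha, hb, by simpa using hne⟩
  · intro h
    constructor
    · rintro ⟨x, hx, y, hy, z, hz, hxy, hyz, ha, hb, hc⟩
      have := h x hx y hy z hz hxy hyz false ha hb
      rw [hc] at this
      simp at this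
    · rintro ⟨x, hx, y, hy, z, hz, hxy, hyz, ha, hb, hc⟩
      have := h x hx y hy z hz hxy hyz true ha hb
      rw [hc] at this
      simp at this

/-- First model: a Turing ideal satisfying `EM` but not `RT²₂(1302)`. -/
theorem exists_idealB : ∃ S : Set (Set ℕ), Ideal S ∧ RamseyLike.em.Holds (omegaStr S) ∧
    ¬ rt1302.Holds (omegaStr S) := by
  obtain ⟨X, h1, h2, Y, h3, h4⟩ := modelB
  refine ⟨{Y | ∃ m, TRed Y (X m)}, ideal_of_chain X h1, fun Z hZ => ?_, fun hall => ?_⟩
  · obtain ⟨m, hm⟩ := hZ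
    obtain ⟨m', H, a, b, c⟩ := h2 m Z hm
    exact ⟨H, ⟨m', a⟩, (sol_em_iff _ _ _).2 ⟨b, c⟩⟩
  · obtain ⟨H, ⟨m, hm⟩, hsol⟩ := hall Y ⟨0, h3⟩
    obtain ⟨a, b⟩ := (sol_rt1302_iff _ _ _).1 hsol
    exact h4 m H hm a b

/-- Second model: a Turing ideal satisfying `RT²₂(1302)` but not `RT²₂`. -/
theorem exists_idealC : ∃ S : Set (Set ℕ), Ideal S ∧ rt1302.Holds (omegaStr S) ∧
    ¬ RamseyLike.rt22.Holds (omegaStr S) := by
  obtain ⟨X, h1, h2, Y, h3, h4⟩ := modelC
  refine ⟨{Y | ∃ m, TRed Y (X m)}, ideal_of_chain X h1, fun Z hZ => ?_, fun hall => ?_⟩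
  · obtain ⟨m, hm⟩ := hZ
    obtain ⟨m', H, a, b, c⟩ := h2 m Z hm
    exact ⟨H, ⟨m', a⟩, (sol_rt1302_iff _ _ _).2 ⟨b, c⟩⟩
  · obtain ⟨H, ⟨m, hm⟩, hsol⟩ := hall Y ⟨0, h3⟩
    obtain ⟨a, b, c⟩ := (sol_rt22_iff _ _ _).1 hsol
    exact h4 m H hm a b c

/-- Being a solution does not depend on the family of sets. -/
theorem sol_congr (A : RamseyLike) (S T : Set (Set ℕ)) (Y H : Set ℕ) :
    A.Sol (omegaStr S) Y H ↔ A.Sol (omegaStr T) Y H := by
  cases A with
  | pat p hp => exact Iff.rfl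
  | rt22 => exact Iff.rfl
  | em => exact Iff.rfl

/-- Computable reducibility transfers along ideals. -/
theorem GeIII.holds {A B : RamseyLike} (h : GeIII A B) {S : Set (Set ℕ)} (hS : Ideal S)
    (hA : A.Holds (omegaStr S)) : B.Holds (omegaStr S) := by
  intro X hX
  obtain ⟨Y, hY, hsol⟩ := h X
  have hYS : Y ∈ S := hS.down X hX Y hY
  obtain ⟨H, hH, hs⟩ := hA Y hYS
  obtain ⟨K, hK, hKs⟩ := hsol H ((sol_congr A S Set.univ Y H).1 hs)
  exact ⟨K, hS.down _ (hS.jn H hH X hX) K hK, (sol_congr B S Set.univ X K).2 hKs⟩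

/-- The main theorem: for each of the three preorders, `RT²₂(1302)` is strictly below `RT²₂` and
not below `EM`. -/
theorem main_gt :
    (Gt GeI .rt22 rt1302 ∧ ¬ GeI .em rt1302) ∧ (Gt GeII .rt22 rt1302 ∧ ¬ GeII .em rt1302) ∧
      (Gt GeIII .rt22 rt1302 ∧ ¬ GeIII .em rt1302) := by
  obtain ⟨S, hS, h1, h2⟩ := exists_idealB
  obtain ⟨T, hT, h3, h4⟩ := exists_idealC
  refine ⟨⟨⟨geI_rt22_pat _ _, fun h => h4 (h _ hT.rca0 h3)⟩, fun h => h2 (h _ hS.rca0 h1)⟩,
    ⟨⟨geII_rt22_pat _ _, fun h => h4 (h _ hT.rca0 h3)⟩, fun h => h2 (h _ hS.rca0 h1)⟩,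
    ⟨⟨geIII_rt22_pat _ _, fun h => h4 (h.holds hT h3)⟩, fun h => h2 (h.holds hS h1)⟩⟩

theorem main_not_smc :
    ¬ StrongMinimalCover GeI .rt22 .em ∧ ¬ StrongMinimalCover GeII .rt22 .em ∧
      ¬ StrongMinimalCover GeIII .rt22 .em := by
  obtain ⟨⟨a, a'⟩, ⟨b, b'⟩, c, c'⟩ := main_gt
  exact ⟨fun h => a' (h.2 _ a), fun h => b' (h.2 _ b), fun h => c' (h.2 _ c)⟩

end Pool.Agent.Lib.MP_b4a791_lc
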