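import Mathlib

/-!
# MP_b4a791_lc: definitions for the final statement

Patterns, Ramsey-like statements, structures for the language of second order arithmetic,
the axioms of `RCA₀`, computable reducibility, the three preorders, strong minimal covers.
-/

namespace Pool.Agent.Lib.MP_b4a791_lc

/-! ### Patterns and Ramsey-like statements -/

/-- A pattern of size `len`: the color of the pair `{i, j}`, `i < j < len`, is `col i j`
(`false` is the color `0`, `true` is the color `1`; other values of `col` are irrelevant). -/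
structure Pattern where
  len : ℕ
  col : ℕ → ℕ → Bool

/-- Non-constant patterns: both colors are taken. -/
def Pattern.NonConst (p : Pattern) : Prop :=
  ∀ b : Bool, ∃ i j, i < j ∧ j < p.len ∧ p.col i j = b

/-- The non-transitivity pattern `q` : `q(0,1) = q(1,2) = 0`, `q(0,2) = 1`. -/
def patQ : Pattern := ⟨3, fun i j => decide (i = 0 ∧ j = 2)⟩

/-- The non-transitivity pattern `1 - q`. -/
def patQbar : Pattern := ⟨3, fun i j => !decide (i = 0 ∧ j = 2)⟩

/-- The Ramsey-like statements: `RT²₂(p)` for a non-constant pattern `p`, `RT²₂` and `EM`. -/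
inductive RamseyLike
  | pat (p : Pattern) (hp : p.NonConst)
  | rt22
  | em

/-! ### Structures for second order arithmetic -/

/-- A structure for the language of second order arithmetic: a set `M` of numbers with
operations and an order, and a family `S` of sets of numbers. -/
structure L2Str where
  M : Type
  zero : M
  one : M
  add : M → M → M
  mul : M → M → M
  lt : M → M → Prop
  S : Set (Set M)

/-- Number terms. -/
inductive Tm
  | var (i : ℕ)
  | zero
  | one
  | add (s t : Tm)
  | mul (s t : Tm)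

/-- Bounded formulas: all number quantifiers are bounded, no set quantifiers. `ball t φ` is
`∀ x < t, φ`, where in `φ` the variable `0` is `x` and the other variables are shifted. -/
inductive BFm
  | eq (s t : Tm)
  | lt (s t : Tm)
  | mem (t : Tm) (i : ℕ)
  | neg (φ : BFm)
  | and (φ ψ : BFm)
  | ball (t : Tm) (φ : BFm)

/-- Shift an assignment and put `a` in front. -/
def scons {M : Type*} (a : M) (e : ℕ → M) : ℕ → M
  | 0 => a
  | i + 1 => e i

/-- Value of a term. -/
def Tm.val (A : L2Str) (e : ℕ → A.M) : Tm → A.M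
  | .var i => e i
  | .zero => A.zero
  | .one => A.one
  | .add s t => A.add (s.val A e) (t.val A e)
  | .mul s t => A.mul (s.val A e) (t.val A e)

/-- Satisfaction of bounded formulas, `e` assigns numbers and `E` assigns sets. -/
def BFm.Sat (A : L2Str) (E : ℕ → Set A.M) : BFm → (ℕ → A.M) → Prop
  | .eq s t, e => s.val A e = t.val A e
  | .lt s t, e => A.lt (s.val A e) (t.val A e)
  | .mem t i, e => t.val A e ∈ E i
  | .neg φ, e => ¬ φ.Sat A E e
  | .and φ ψ, e => φ.Sat A E e ∧ ψ.Sat A E e
  | .ball t φ, e => ∀ a, A.lt a (t.val A e) → φ.Sat A E (scons a e)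

/-- The `Σ⁰₁` formula `∃ y, θ(y, x, …)` at the number `x`: in `θ` the variable `0` is `y`, the
variable `1` is `x`, the other variables are the number parameters. -/
def Sig (A : L2Str) (E : ℕ → Set A.M) (e : ℕ → A.M) (θ : BFm) (x : A.M) : Prop :=
  ∃ y, θ.Sat A E (scons y (scons x e))

/-- The axioms of `RCA₀`: the basic axioms, `Σ⁰₁` induction and `Δ⁰₁` comprehension, with number
and set parameters. -/
structure RCA0 (A : L2Str) : Prop where
  sets : A.S.Nonempty
  succ_ne_zero : ∀ n, A.add n A.one ≠ A.zero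
  succ_inj : ∀ m n, A.add m A.one = A.add n A.one → m = n
  add_zero : ∀ m, A.add m A.zero = m
  add_succ : ∀ m n, A.add m (A.add n A.one) = A.add (A.add m n) A.one
  mul_zero : ∀ m, A.mul m A.zero = A.zero
  mul_succ : ∀ m n, A.mul m (A.add n A.one) = A.add (A.mul m n) m
  not_lt_zero : ∀ m, ¬ A.lt m A.zero
  lt_succ : ∀ m n, A.lt m (A.add n A.one) ↔ A.lt m n ∨ m = n
  ind : ∀ (θ : BFm) (E : ℕ → Set A.M) (e : ℕ → A.M), (∀ i, E i ∈ A.S) →
    Sig A E e θ A.zero → (∀ n, Sig A E e θ n → Sig A E e θ (A.add n A.one)) →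
    ∀ n, Sig A E e θ n
  comp : ∀ (θ η : BFm) (E : ℕ → Set A.M) (e : ℕ → A.M), (∀ i, E i ∈ A.S) →
    (∀ n, Sig A E e θ n ↔ ¬ Sig A E e η n) → {n | Sig A E e θ n} ∈ A.S

/-- The code `(x + y)² + x` of the pair `(x, y)`. -/
def L2Str.pr (A : L2Str) (x y : A.M) : A.M :=
  A.add (A.mul (A.add x y) (A.add x y)) x

/-- The coloring of pairs coded by the set `X`: for `x < y` the color of `{x, y}` is `1` (`true`)
iff the code of `(x, y)` is in `X`. -/
def L2Str.Color (A : L2Str) (X : Set A.M) (x y : A.M) (b : Bool) : Prop :=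
  A.pr x y ∈ X ↔ b = true

/-- Unbounded sets. -/
def L2Str.Inf (A : L2Str) (H : Set A.M) : Prop := ∀ n, ∃ m ∈ H, A.lt n m

/-- `H` realizes the pattern `p` in the coloring coded by `X`. -/
def L2Str.Realizes (A : L2Str) (X H : Set A.M) (p : Pattern) : Prop :=
  ∃ x : ℕ → A.M, (∀ i < p.len, x i ∈ H) ∧ (∀ i j, i < j → j < p.len → A.lt (x i) (x j)) ∧
    ∀ i j, i < j → j < p.len → A.Color X (x i) (x j) (p.col i j)

/-- `H` is homogeneous with color `b` for the coloring coded by `X`. -/
def L2Str.Homog (A : L2Str) (X H : Set A.M) (b : Bool) : Prop :=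
  ∀ x ∈ H, ∀ y ∈ H, A.lt x y → A.Color X x y b

/-- `H` is a solution of the instance `X` of the Ramsey-like statement. -/
def RamseyLike.Sol (A : L2Str) (X H : Set A.M) : RamseyLike → Prop
  | .pat p _ => A.Inf H ∧ ¬ A.Realizes X H p
  | .rt22 => A.Inf H ∧ ∃ b, A.Homog X H b
  | .em => A.Inf H ∧ ¬ A.Realizes X H patQ ∧ ¬ A.Realizes X H patQbar

/-- The Ramsey-like statement holds in the structure. -/
def RamseyLike.Holds (A : L2Str) (P : RamseyLike) : Prop :=
  ∀ X ∈ A.S, ∃ H ∈ A.S, P.Sol A X H

/-- The standard structure with family of sets `S`. -/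
def omegaStr (S : Set (Set ℕ)) : L2Str := ⟨ℕ, 0, 1, (· + ·), (· * ·), (· < ·), S⟩

/-! ### Turing reducibility of sets and the three preorders -/

open Classical in
/-- Characteristic function of a set of natural numbers. -/
noncomputable def chr (X : Set ℕ) : ℕ →. ℕ := fun n => Part.some (if n ∈ X then 1 else 0)

/-- Turing reducibility of sets of natural numbers. -/
def TRed (Y X : Set ℕ) : Prop := TuringReducible (chr Y) (chr X)

/-- The join of two sets. -/
def join (X Y : Set ℕ) : Set ℕ := {n | (∃ m ∈ X, n = 2 * m) ∨ ∃ m ∈ Y, n = 2 * m + 1}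

/-- Preorder (i): `RCA₀` proves `A → B` (by the completeness theorem: every model of `RCA₀` and
`A` satisfies `B`). -/
def GeI (A B : RamseyLike) : Prop := ∀ M : L2Str, RCA0 M → A.Holds M → B.Holds M

/-- Preorder (ii): every `ω`-model of `RCA₀` and `A` satisfies `B`. -/
def GeII (A B : RamseyLike) : Prop :=
  ∀ S : Set (Set ℕ), RCA0 (omegaStr S) → A.Holds (omegaStr S) → B.Holds (omegaStr S)

/-- Preorder (iii): `B` is computably reducible to `A`. -/
def GeIII (A B : RamseyLike) : Prop :=
  ∀ X : Set ℕ, ∃ Y : Set ℕ, TRed Y X ∧ ∀ H, A.Sol (omegaStr Set.univ) Y H →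
    ∃ K, TRed K (join H X) ∧ B.Sol (omegaStr Set.univ) X K

/-- Strict version of a preorder. -/
def Gt (ge : RamseyLike → RamseyLike → Prop) (a b : RamseyLike) : Prop := ge a b ∧ ¬ ge b a

/-- `a` is a strong minimal cover of `b`. -/
def StrongMinimalCover (ge : RamseyLike → RamseyLike → Prop) (a b : RamseyLike) : Prop :=
  Gt ge a b ∧ ∀ c, Gt ge a c → ge b c

/-- The permutation pattern of `π : ℕ → ℕ` (used on `i < len`): color `0` iff `π i < π j`. -/
def permPattern (len : ℕ) (π : ℕ → ℕ) : Pattern := ⟨len, fun i j => !decide (π i < π j)⟩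

/-- The pattern `1302`. -/
def pat1302 : Pattern :=
  permPattern 4 fun i => if i = 0 then 1 else if i = 1 then 3 else if i = 2 then 0 else 2

end Pool.Agent.Lib.MP_b4a791_lc
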